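import Pool.Agent.J4.H83.SX.ParT
import Pool.Agent.Y644.QW.Len
set_option autoImplicit false

/-!
# The length of the path is at most the number of steps of the machine
-/

namespace Pool.Agent.J4.H83.SX

open Pool.Agent.Y644.QS Pool.Agent.Y644.QW Pool.Agent.H687R2.LLL Pool.Agent.NPC
open Pool.Agent.NPC.H532.RP

variable {c : List ℤ}

theorem lenT_step (s : WState) : lenW (wstepT c s) ≤ lenW s + 1 := by
  obtain ⟨s, st⟩ := s
  rcases s with ⟨g, E, I, P⟩ | ⟨x | p, l⟩
  · change lenW (wcall c g E (pruneT c E I) P st) ≤
      P.length + (st.map fun f => f.2.2.2.tail.length).sum + 1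
    unfold wcall
    split_ifs
    · simp [retW, lenW, lenS]
    · cases (topF c E (jl c (pruneT c E I)) (pruneT c E I) (hdp P)).head? with
      | none =>
        rw [Option.elim_none, lenW_mkcall]
        simp only [List.map_cons, List.sum_cons, List.length_singleton]
        have : P.tail.length ≤ P.length := by simp
        omega
      | some F =>
        simp [wfac, lenW]
  · change lenS (step c (Sum.inl x, l)) + _ ≤ lenS (Sum.inl x, l) + _ + 1
    have := lenS_step (c := c) (Sum.inl x, l)
    omega
  · cases l with
    | cons f l =>
      change lenS (step c (Sum.inr p, f :: l)) + _ ≤ lenS (Sum.inr p, f :: l) + _ + 1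
      have := lenS_step (c := c) (Sum.inr p, f :: l)
      omega
    | nil =>
      cases st with
      | nil => exact Nat.le_add_right _ _
      | cons f st =>
        obtain ⟨g, E, I, P⟩ := f
        change lenW (wret c g E I P st (trunc c E I (wS c E I) p)) ≤
          (p.length + 0) + (P.tail.length + (st.map fun f => f.2.2.2.tail.length).sum) + 1
        have h1 := length_trunc_le (c := c) (E := E) (I := I) (S := wS c E I) p
        have h2 := length_le_tail P
        unfold wret
        split_ifs
        · cases (topF c E (jl c I) I (hdp (trunc c E I (wS c E I) p).1)).head? with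
          | none =>
            simp only [Option.elim_none, retW, lenW, lenS, List.map_nil, List.sum_nil]
            omega
          | some F =>
            simp only [Option.elim_some, wfac, lenW, List.length_append]
            omega
        · simp only [retW, lenW, lenS, List.map_nil, List.sum_nil, List.length_append]
          omega

theorem lenT_iter (s : WState) (j : ℕ) : lenW ((wstepT c)^[j] s) ≤ lenW s + j := by
  induction j with
  | zero => exact le_rfl
  | succ j ih =>
    rw [Function.iterate_succ_apply']
    have := lenT_step (c := c) ((wstepT c)^[j] s)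
    omega

/-- the computed path has at most as many edges as the machine has made steps -/
theorem length_pathT {x : Inp} {g k : ℕ} {p : List (List ℤ)} (h : runT x g k = retW p []) :
    p.length ≤ k + 1 := by
  have h1 := lenT_iter (c := crow x) (mkcall g [] (rowsD x) [startV x], []) k
  unfold runT at h
  rw [h, lenW_mkcall] at h1
  simp only [retW, lenW, lenS, List.map_nil, List.sum_nil, List.length_singleton] at h1
  omega

variable {m n : ℕ} {A : Fin m → Fin n → ℚ} {b : Fin m → ℚ} {c v : Fin n → ℚ}

/-- The algorithm is correct. The output does not depend on the bound `K` for the number of steps,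
if one of the algorithms finishes within `K` steps; then the path has at most `K` edges. -/
theorem lpT_len (hv : re v ∈ Set.extremePoints ℝ (polyhedron A b)) (L : ℕ) :
    ∃ (N : ℕ) (x : ℕ → Fin n → ℚ) (d : Option (Fin n → ℚ)),
      (∀ K, (∃ g ≤ L, ∃ k ≤ K, term (runT (inp A b c v) g k) = true) →
        lpT (inp A b c v) L K =
          ((List.range (N + 1)).map (fun k => List.ofFn (x k)), d.map List.ofFn) ∧ N ≤ K) ∧
      IsSimplexPath (polyhedron A b) c v N x d := by
  obtain ⟨N, x, d, h1, h2, k, g, Q, h3, h4, h5⟩ := lpT_spec (c := c) hv L
  refine ⟨N, x, d, fun K hK => ⟨h1 K hK, ?_⟩, h2⟩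
  obtain ⟨g', a1, i, a2, a3⟩ := hK
  have h6 := length_pathT h4
  rw [List.length_append, List.length_singleton] at h6
  have h7 : k ≤ i := by
    by_contra hcon
    have := h3 i (by omega) g' a1
    rw [a3] at this
    exact absurd this (by simp)
  omega

end Pool.Agent.J4.H83.SX
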