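import Pool.Agent.J4.H83.SX.Group
import Pool.Agent.J4.H83.SX.PolyF
set_option autoImplicit false

/-!
# The bounds for thin polyhedra
-/

namespace Pool.Agent.J4.H83.SX

open Pool.Agent.Y644.QS Pool.Agent.Y644.QW Pool.Agent.H687R2.LLL Pool.Agent.NPC
open Pool.Agent.NPC.Y644 Pool.Agent.NPC.H532.RP

theorem bnd_e (e : ℕ) : bnd (e + 2) (e + 2) ≤ 2 ^ (28 * (Nat.log 2 e + 1) ^ 2) := by
  set l := Nat.log 2 e with hl
  have he : e < 2 ^ (l + 1) := Nat.lt_pow_succ_log_self (by norm_num) e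
  have h2 : 2 ≤ 2 ^ (l + 1) := by
    calc 2 = 2 ^ 1 := by norm_num
      _ ≤ 2 ^ (l + 1) := Nat.pow_le_pow_right (by norm_num) (by omega)
  have hsz : Nat.size (e + 2) ≤ l + 3 := by
    rw [Nat.size_le]
    have : 2 ^ (l + 3) = 2 ^ (l + 1) * 4 := by rw [pow_add, pow_add]; ring
    omega
  have h1 : 16 * (e + 2) + 16 ≤ 2 ^ (l + 7) := by
    have : 2 ^ (l + 7) = 2 ^ (l + 1) * 64 := by rw [pow_add, pow_add]; ring
    omega
  calc bnd (e + 2) (e + 2) ≤ (16 * (e + 2) + 16) ^ (Nat.size (e + 2) + 1) :=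
        bnd_le_pow le_rfl le_rfl
    _ ≤ (2 ^ (l + 7)) ^ (l + 4) := (Nat.pow_le_pow_left h1 _).trans
        (Nat.pow_le_pow_right (by positivity) (by omega))
    _ = 2 ^ ((l + 7) * (l + 4)) := by rw [← pow_mul]
    _ ≤ 2 ^ (28 * (l + 1) ^ 2) := Nat.pow_le_pow_right (by norm_num) (by nlinarith)

theorem choose_two (n : ℕ) : Nat.choose (2 + n) 2 ≤ (n + 1) ^ 2 := by
  rw [Nat.choose_two_right]
  refine Nat.div_le_of_le_mul ?_
  have : 2 + n - 1 = n + 1 := by omega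
  rw [this]
  nlinarith

theorem steps_le {n e j : ℕ}
    (h : j + 2 ≤ (bnd (e + 2) (e + 2) + 2) * Nat.choose (2 + n) 2) :
    j ≤ (n + 1) ^ 2 * 2 ^ (30 * (Nat.log 2 e + 1) ^ 2) := by
  have h1 := bnd_e e
  have h2 := choose_two n
  set l := Nat.log 2 e
  have h3 : 2 ^ (28 * (l + 1) ^ 2) + 2 ≤ 2 ^ (30 * (l + 1) ^ 2) := by
    have h4 : 1 ≤ (l + 1) ^ 2 := Nat.one_le_pow _ _ (by omega)
    have h5 : 2 ^ (28 * (l + 1) ^ 2) * 2 ^ 2 ≤ 2 ^ (30 * (l + 1) ^ 2) := by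
      rw [← pow_add]
      exact Nat.pow_le_pow_right (by norm_num) (by omega)
    have h6 : 1 ≤ 2 ^ (28 * (l + 1) ^ 2) := Nat.one_le_two_pow
    omega
  calc j ≤ (bnd (e + 2) (e + 2) + 2) * Nat.choose (2 + n) 2 := by omega
    _ ≤ 2 ^ (30 * (l + 1) ^ 2) * (n + 1) ^ 2 :=
        Nat.mul_le_mul ((Nat.add_le_add_right h1 2).trans h3) h2
    _ = _ := by ring

/-- the bound for the number of steps -/
def KT (C L : ℕ) : ℕ := (L + 1) ^ 2 * (2 ^ 60 * (L + 1) ^ (60 * C))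

theorem le_KT {C L n e : ℕ} (hL : 0 < L) (hn : n ≤ L)
    (h : Nat.log 2 e ^ 2 ≤ C * Nat.log 2 L) :
    (n + 1) ^ 2 * 2 ^ (30 * (Nat.log 2 e + 1) ^ 2) ≤ KT C L := by
  set l := Nat.log 2 e
  unfold KT
  refine Nat.mul_le_mul (Nat.pow_le_pow_left (by omega) _) ?_
  calc 2 ^ (30 * (l + 1) ^ 2) ≤ 2 ^ (60 + 60 * (C * Nat.log 2 L)) := by
        refine Nat.pow_le_pow_right (by norm_num) ?_
        nlinarith [sq_nonneg ((l : ℤ) - 1), Nat.zero_le l, h,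
          (show (l + 1) ^ 2 ≤ 2 * l ^ 2 + 2 by
            zify; nlinarith [sq_nonneg ((l : ℤ) - 1)])]
    _ = 2 ^ 60 * (2 ^ (C * Nat.log 2 L)) ^ 60 := by
        rw [pow_add, ← pow_mul]; congr 2; ring
    _ ≤ 2 ^ 60 * (L ^ C) ^ 60 :=
        Nat.mul_le_mul_left _ (Nat.pow_le_pow_left (two_pow_log_mul hL) 60)
    _ ≤ 2 ^ 60 * (L + 1) ^ (60 * C) := by
        refine Nat.mul_le_mul_left _ ?_
        rw [← pow_mul, mul_comm C 60]
        exact Nat.pow_le_pow_left (by omega) _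

theorem poly_lpKT (C : ℕ) : PolyTime (fun x => bits (lpBitsT x (KT C x.length))) := by
  refine polyTime_bits (poly_lpBitsT Poly.id ?_)
  unfold KT
  have h1 : UPoly (fun x : List Bool => (x.length + 1) ^ (60 * C)) :=
    UPoly_pow (by fun_prop) _
  have h2 : UPoly (fun x : List Bool => (x.length + 1) ^ 2) :=
    UPoly_pow (by fun_prop) _
  fun_prop

variable {m n : ℕ} {A : Fin m → Fin n → ℚ} {b : Fin m → ℚ} {c v : Fin n → ℚ}

theorem lpBitsT_inp (K : ℕ) : lpBitsT (bits (inp A b c v)) K =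
    lpT (inp A b c v) (sz (inp A b c v)) K := by
  unfold lpBitsT
  rw [unbits_bits, bits_length]
  rfl

/-- the algorithm with counter `0` finishes -/
theorem term_generalT (hv : re v ∈ Set.extremePoints ℝ (polyhedron A b)) {L K : ℕ}
    (h : bnd n (m + n) ≤ K) : ∃ g ≤ L, ∃ k ≤ K, term (runT (inp A b c v) g k) = true := by
  obtain ⟨Q, j, h1, h2, -⟩ := run_lp_generalT (cc := c) hv 0
  rw [zero_add, Nat.choose_zero_right, mul_one] at h1
  exact ⟨0, Nat.zero_le _, j, by omega, term_iff.2 ⟨_, h2⟩⟩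

/-- the algorithm with counter `2` finishes -/
theorem term_thin (hv : re v ∈ Set.extremePoints ℝ (polyhedron A b)) {e L K : ℕ} (hL : 2 ≤ L)
    (hthin : Thin A b e) (hK : (n + 1) ^ 2 * 2 ^ (30 * (Nat.log 2 e + 1) ^ 2) ≤ K) :
    ∃ g ≤ L, ∃ k ≤ K, term (runT (inp A b c v) g k) = true := by
  obtain ⟨Q, j, h1, h2, -⟩ := run_thin (c := c) hv hthin
  exact ⟨2, hL, j, (steps_le h1).trans hK, term_iff.2 ⟨_, h2⟩⟩

theorem two_le_sz : 2 ≤ sz (inp A b c v) := by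
  unfold Y644.QS.inp
  rw [sz_pair]
  have := sz_pos (List.ofFn fun i => List.ofFn (A i))
  omega

end Pool.Agent.J4.H83.SX
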