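import Pool.Agent.J4.H83.SX.Thin
set_option autoImplicit false

/-!
# Polyhedra which are products of simplices up to few constraints
-/

namespace Pool.Agent.J4.H83.SX

open Finset Pool.Agent.Y644.QS Pool.Agent.Y644.QW

variable {m n : ℕ}

/-- product structure with exceptional constraints -/
def Grouped (A : Fin m → Fin n → ℚ) (b : Fin m → ℚ) (e : ℕ) : Prop :=
  ∃ (d : ℕ) (G : Fin d → Finset (Fin m ⊕ Fin n)) (X : Finset (Fin m ⊕ Fin n)),
    (∀ j k, j ≠ k → Disjoint (G j) (G k)) ∧
    ∑ j, (G j).card ≤ Module.finrank ℝ (vectorSpan ℝ (polyhedron A b)) + d ∧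
    (∀ j, ∀ x ∈ polyhedron A b, ∃ i ∈ G j, slack A b i x ≠ 0) ∧
    X.card ≤ e ∧
    ∀ i, (∃ j, i ∈ G j) ∨ i ∈ X ∨ (∀ x ∈ polyhedron A b, slack A b i x = 0) ∨
      ∀ x ∈ polyhedron A b, slack A b i x ≠ 0

variable {A : Fin m → Fin n → ℚ} {b : Fin m → ℚ}

/-- the linear part of the slack -/
noncomputable def lin (A : Fin m → Fin n → ℚ) :
    Fin m ⊕ Fin n → (Fin n → ℝ) →ₗ[ℝ] ℝ
  | Sum.inl i => - ∑ j, (A i j : ℝ) • LinearMap.proj j
  | Sum.inr j => LinearMap.proj j

theorem slack_add (i : Fin m ⊕ Fin n) (x u : Fin n → ℝ) :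
    slack A b i (x + u) = slack A b i x + lin A i u := by
  rcases i with i | j
  · simp only [slack, lin, LinearMap.neg_apply, LinearMap.sum_apply, LinearMap.smul_apply,
      LinearMap.proj_apply, smul_eq_mul, Pi.add_apply, mul_add, Finset.sum_add_distrib]
    ring
  · simp [slack, lin]

theorem slack_sub (i : Fin m ⊕ Fin n) (x y : Fin n → ℝ) :
    lin A i (x - y) = slack A b i x - slack A b i y := by
  have h := slack_add (A := A) (b := b) i y (x - y)
  rw [add_sub_cancel] at h
  linarith

theorem slack_mid (i : Fin m ⊕ Fin n) (x y : Fin n → ℝ) :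
    slack A b i (x + (1 / 2 : ℝ) • (y - x)) = (slack A b i x + slack A b i y) / 2 := by
  rw [slack_add, map_smul, slack_sub (b := b), smul_eq_mul]
  ring

/-- a point at which all the constraints which are not constant zero are not tight -/
theorem exists_interior {T : Finset (Fin m ⊕ Fin n)} (hne : (faceOf A b T).Nonempty)
    (R : Finset (Fin m ⊕ Fin n)) (hR : ∀ i ∈ R, ∃ x ∈ faceOf A b T, slack A b i x ≠ 0) :
    ∃ x ∈ faceOf A b T, ∀ i ∈ R, 0 < slack A b i x := by
  classical
  induction R using Finset.induction_on with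
  | empty =>
    obtain ⟨x, hx⟩ := hne
    exact ⟨x, hx, by simp⟩
  | insert i R hi ih =>
    obtain ⟨x, hx, hxR⟩ := ih fun k hk => hR k (Finset.mem_insert_of_mem hk)
    obtain ⟨y, hy, hyi⟩ := hR i (Finset.mem_insert_self _ _)
    have hx0 := (mem_poly_iff x).1 hx.1
    have hy0 := (mem_poly_iff y).1 hy.1
    refine ⟨x + (1 / 2 : ℝ) • (y - x), ⟨(mem_poly_iff _).2 fun k => ?_, fun k hk => ?_⟩,
      fun k hk => ?_⟩
    · rw [slack_mid]; have := hx0 k; have := hy0 k; linarith
    · rw [slack_mid, hx.2 k hk, hy.2 k hk]; norm_num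
    · rw [slack_mid]
      rcases Finset.mem_insert.1 hk with rfl | hk
      · have h1 := hx0 k
        have h2 := lt_of_le_of_ne (hy0 k) (Ne.symm hyi)
        linarith
      · have h1 := hxR k hk
        have h2 := hy0 k
        linarith

/-- the dimension drops by at most one for every constraint -/
theorem finrank_le_add (W : Submodule ℝ (Fin n → ℝ)) (R : Finset (Fin m ⊕ Fin n)) :
    ∀ W' : Submodule ℝ (Fin n → ℝ), (∀ u ∈ W, (∀ i ∈ R, lin A i u = 0) → u ∈ W') →
      Module.finrank ℝ W ≤ Module.finrank ℝ W' + R.card := by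
  classical
  induction R using Finset.induction_on generalizing W with
  | empty =>
    intro W' h
    rw [Finset.card_empty, add_zero]
    exact Submodule.finrank_mono fun u hu => h u hu (by simp)
  | insert i R hi ih =>
    intro W' h
    have h1 := finrank_ker_le W (W ⊓ LinearMap.ker (lin A i)) (lin A i) fun u hu h0 => ⟨hu, h0⟩
    have h2 := ih (W ⊓ LinearMap.ker (lin A i)) W' fun u hu h3 => h u hu.1 fun k hk => by
      rcases Finset.mem_insert.1 hk with rfl | hk
      · exact hu.2
      · exact h3 k hk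
    rw [Finset.card_insert_of_notMem hi]
    omega

/-- the dimension of a face -/
theorem dim_face {T S : Finset (Fin m ⊕ Fin n)} (hne : (faceOf A b T).Nonempty)
    (hS : ∀ i, (∀ x ∈ faceOf A b T, slack A b i x = 0) →
      (∃ x ∈ polyhedron A b, slack A b i x ≠ 0) → i ∈ S) :
    Module.finrank ℝ (vectorSpan ℝ (polyhedron A b)) ≤
      Module.finrank ℝ (vectorSpan ℝ (faceOf A b T)) + S.card := by
  classical
  refine finrank_le_add (A := A) _ S _ fun u hu hS0 => ?_
  obtain ⟨x, hx, hxR⟩ := exists_interior hne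
    (Finset.univ.filter fun i => ∃ x ∈ faceOf A b T, slack A b i x ≠ 0) (by simp)
  -- the linear parts of the other constraints vanish at `u`
  have hlin : ∀ i, (∀ x ∈ faceOf A b T, slack A b i x = 0) → lin A i u = 0 := by
    intro i hi
    by_cases hP : ∃ x ∈ polyhedron A b, slack A b i x ≠ 0
    · exact hS0 i (hS i hi hP)
    · push Not at hP
      have h1 : vectorSpan ℝ (polyhedron A b) ≤ LinearMap.ker (lin A i) := by
        rw [vectorSpan_def, Submodule.span_le]
        rintro _ ⟨y, hy, w, hw, rfl⟩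
        change lin A i (y - w) = 0
        rw [slack_sub (b := b), hP y hy, hP w hw, sub_zero]
      exact h1 hu
  -- a small step
  obtain ⟨ε, hε, hεi⟩ : ∃ ε : ℝ, 0 < ε ∧ ∀ i : Fin m ⊕ Fin n,
      (∃ x ∈ faceOf A b T, slack A b i x ≠ 0) → 0 ≤ slack A b i x + ε * lin A i u := by
    have h1 : ∀ i : Fin m ⊕ Fin n, ∃ ε : ℝ, 0 < ε ∧ ∀ δ, 0 < δ → δ ≤ ε →
        (∃ x ∈ faceOf A b T, slack A b i x ≠ 0) → 0 ≤ slack A b i x + δ * lin A i u := by
      intro i
      by_cases hi : ∃ x ∈ faceOf A b T, slack A b i x ≠ 0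
      · have h2 : 0 < slack A b i x := hxR i (by simpa using hi)
        refine ⟨slack A b i x / (|lin A i u| + 1), by positivity, fun δ hδ hle _ => ?_⟩
        have h3 : δ * |lin A i u| ≤ slack A b i x := by
          have h4 : 0 < |lin A i u| + 1 := by positivity
          rw [le_div_iff₀ h4] at hle
          nlinarith [abs_nonneg (lin A i u)]
        have h5 := neg_abs_le (lin A i u)
        nlinarith
      · exact ⟨1, one_pos, fun _ _ _ h => absurd h hi⟩
    choose ε hε hε' using h1
    by_cases hempty : Nonempty (Fin m ⊕ Fin n)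
    · obtain ⟨i0, hi0⟩ := Finite.exists_min ε
      exact ⟨ε i0, hε i0, fun i hi => hε' i (ε i0) (hε i0) (hi0 i) hi⟩
    · exact ⟨1, one_pos, fun i => absurd ⟨i⟩ hempty⟩
  have hmem : x + ε • u ∈ faceOf A b T := by
    refine ⟨(mem_poly_iff _).2 fun i => ?_, fun i hi => ?_⟩
    · rw [slack_add, map_smul, smul_eq_mul]
      by_cases hi : ∃ x ∈ faceOf A b T, slack A b i x ≠ 0
      · exact hεi i hi
      · push Not at hi
        rw [hlin i hi, mul_zero, add_zero, hi x hx]
    · rw [slack_add, map_smul, smul_eq_mul, hx.2 i hi, hlin i fun y hy => hy.2 i hi]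
      ring
  have h1 := vsub_mem_vectorSpan ℝ hmem hx
  rw [vsub_eq_sub, add_sub_cancel_left] at h1
  have h2 := Submodule.smul_mem _ ε⁻¹ h1
  rwa [smul_smul, inv_mul_cancel₀ hε.ne', one_smul] at h2

/-- products of simplices with `e` further constraints -/
theorem Grouped.thin {e : ℕ} (h : Grouped A b e) : Thin A b (3 * e) := by
  classical
  obtain ⟨d, G, X, hdis, hsum, hnot, hX, hcov⟩ := h
  intro T hne
  set F := faceOf A b T with hF
  have hFP : ∀ x ∈ F, x ∈ polyhedron A b := fun x hx => hx.1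
  set S : Finset (Fin m ⊕ Fin n) := Finset.univ.filter fun i => ∀ x ∈ F, slack A b i x = 0
    with hS
  -- the dimension
  have h1 : Module.finrank ℝ (vectorSpan ℝ (polyhedron A b)) ≤
      Module.finrank ℝ (vectorSpan ℝ F) + (∑ j, (S ∩ G j).card + e) := by
    have h2 := dim_face (S := (Finset.univ.biUnion fun j => S ∩ G j) ∪ X) hne
      (fun i hi hP => ?_)
    · refine h2.trans (Nat.add_le_add_left ?_ _)
      refine (Finset.card_union_le _ _).trans (Nat.add_le_add ?_ hX)
      exact Finset.card_biUnion_le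
    · rcases hcov i with ⟨j, hj⟩ | hiX | h0 | h0
      · refine Finset.mem_union_left _ (Finset.mem_biUnion.2 ⟨j, Finset.mem_univ _, ?_⟩)
        exact Finset.mem_inter.2 ⟨by rw [hS, Finset.mem_filter]; exact ⟨Finset.mem_univ _, hi⟩,
          hj⟩
      · exact Finset.mem_union_right _ hiX
      · obtain ⟨x, hx, hx0⟩ := hP
        exact absurd (h0 x hx) hx0
      · obtain ⟨x, hx⟩ := hne
        exact absurd (hi x hx) (h0 x (hFP x hx))
  -- the groups
  have h3 : ∀ j, (facets A b T ∩ G j).card + 2 * (S ∩ G j).card + 2 ≤ 2 * (G j).card := by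
    intro j
    obtain ⟨x0, hx0⟩ := hne
    have hsd : (G j \ S).card + (S ∩ G j).card = (G j).card := by
      rw [Finset.inter_comm]; exact Finset.card_sdiff_add_card_inter _ _
    have hsub : facets A b T ∩ G j ⊆ G j \ S := by
      intro i hi
      rw [Finset.mem_inter, facets, Finset.mem_filter] at hi
      obtain ⟨⟨-, -, x, hx, hxi⟩, hi2⟩ := hi
      refine Finset.mem_sdiff.2 ⟨hi2, fun h4 => ?_⟩
      rw [hS, Finset.mem_filter] at h4
      exact hxi (h4.2 x hx)
    have hle := Finset.card_le_card hsub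
    obtain ⟨i0, hi0, hi0'⟩ := hnot j x0 (hFP x0 hx0)
    have hi0S : i0 ∈ G j \ S := by
      refine Finset.mem_sdiff.2 ⟨hi0, fun h4 => ?_⟩
      rw [hS, Finset.mem_filter] at h4
      exact hi0' (h4.2 x0 hx0)
    have hpos : 0 < (G j \ S).card := Finset.card_pos.2 ⟨i0, hi0S⟩
    by_cases h1c : (G j \ S).card = 1
    · -- no member touches the face
      have hempty : (facets A b T ∩ G j).card = 0 := by
        rw [Finset.card_eq_zero, Finset.eq_empty_iff_forall_notMem]
        intro i hi
        have hi' := hsub hi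
        rw [Finset.mem_inter, facets, Finset.mem_filter] at hi
        obtain ⟨⟨-, ⟨x, hx, hxi⟩, -⟩, hi2⟩ := hi
        obtain ⟨k, hk, hk'⟩ := hnot j x (hFP x hx)
        have hkS : k ∈ G j \ S := by
          refine Finset.mem_sdiff.2 ⟨hk, fun h4 => ?_⟩
          rw [hS, Finset.mem_filter] at h4
          exact hk' (h4.2 x hx)
        obtain ⟨y, hy⟩ := Finset.card_eq_one.1 h1c
        rw [hy, Finset.mem_singleton] at hi' hkS
        rw [hkS, ← hi'] at hk'
        exact hk' hxi
      omega
    · omega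
  have h4 : ∑ j, (facets A b T ∩ G j).card + 2 * ∑ j, (S ∩ G j).card + 2 * d ≤
      2 * ∑ j, (G j).card := by
    have := Finset.sum_le_sum fun j (_ : j ∈ Finset.univ) => h3 j
    rw [Finset.sum_add_distrib, Finset.sum_add_distrib, ← Finset.mul_sum, ← Finset.mul_sum,
      Finset.sum_const, Finset.card_univ, Fintype.card_fin, smul_eq_mul] at this
    omega
  -- the facets
  have h5 : (facets A b T).card ≤ ∑ j, (facets A b T ∩ G j).card + e := by
    have hsub : facets A b T ⊆ (Finset.univ.biUnion fun j => facets A b T ∩ G j) ∪ X := by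
      intro i hi
      rcases hcov i with ⟨j, hj⟩ | hiX | h0 | h0
      · exact Finset.mem_union_left _ (Finset.mem_biUnion.2 ⟨j, Finset.mem_univ _,
          Finset.mem_inter.2 ⟨hi, hj⟩⟩)
      · exact Finset.mem_union_right _ hiX
      · rw [facets, Finset.mem_filter] at hi
        obtain ⟨-, -, x, hx, hxi⟩ := hi
        exact absurd (h0 x (hFP x hx)) hxi
      · rw [facets, Finset.mem_filter] at hi
        obtain ⟨-, ⟨x, hx, hxi⟩, -⟩ := hi
        exact absurd hxi (h0 x (hFP x hx))
    refine (Finset.card_le_card hsub).trans ((Finset.card_union_le _ _).trans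
      (Nat.add_le_add Finset.card_biUnion_le hX))
  omega

end Pool.Agent.J4.H83.SX
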