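import Pool.Agent.J4.H83.SX.Mach
import Pool.Agent.Y644.QW.Par
set_option autoImplicit false

/-!
# All counters in parallel
-/

namespace Pool.Agent.J4.H83.SX

open Finset Pool.Agent.Y644.QS Pool.Agent.Y644.QW Pool.Agent.H687R2.LLL Pool.Agent.NPC
open Pool.Agent.NPC.H532.RP

theorem length_pruneT_filter {c : List ℤ} {E I : List (List ℤ)} (p : List ℤ → Bool) :
    ((pruneT c E I).filter p).length ≤ I.length :=
  (List.length_filter_le _ _).trans (List.length_filter_le _ _)

/-- the general bound -/
theorem run_generalT {n : ℕ} {c : List ℤ} (hN : c.length = n + 1) {M g : ℕ}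
    {I : List (List ℤ)} {v : List ℤ}
    (hM : I.length ≤ M) (hI : Len c.length I) (hv : Vx c [] (jl c I) v) :
    WResT c [] I v [] [] ((bnd n M + 2) * Nat.choose (g + n) g) (mkcall g [] I [v], []) := by
  have hc : 0 < c.length := by omega
  refine wrunT hc (bnd_pos n M) (Q := fun _ _ I => I.length ≤ M) ?_ ?_ ?_ g n [] I v [] [] hM
    (dimLe_top hN _) (fun r hr => by simp at hr) hI hv
  · intro g E I F v h _ _ _ _
    exact (length_pruneT_filter _).trans h
  · intro g E I v w h _ _ _ _ _ _ _
    exact (length_pruneT_filter _).trans h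
  · intro E I v P0 h hE hI hv
    exact ⟨_, run_call hc M n E I v P0 [] h (dimLe_top hN _) hE hI hv⟩

variable {m n : ℕ} {A : Fin m → Fin n → ℚ} {b : Fin m → ℚ} {cc vv : Fin n → ℚ}

theorem run_lp_generalT (hv : re vv ∈ Set.extremePoints ℝ (polyhedron A b)) (g : ℕ) :
    WResT (crow (inp A b cc vv)) [] (rowsD (inp A b cc vv)) (startV (inp A b cc vv)) [] []
      ((bnd n (m + n) + 2) * Nat.choose (g + n) g)
      (mkcall g [] (rowsD (inp A b cc vv)) [startV (inp A b cc vv)], []) :=
  run_generalT length_crow rowsD_facts.1 rowsD_facts.2 (vx_dd (start_vx hv))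

/-- the state of the algorithm with counter `g` after `k` steps -/
def runT (x : Inp) (g k : ℕ) : WState :=
  (wstepT (crow x))^[k] (mkcall g [] (rowsD x) [startV x], [])

/-- the first time at which one of the algorithms has finished -/
def firstKT (x : Inp) (L K : ℕ) : ℕ :=
  ((List.range (K + 1)).filter fun k =>
    (List.range (L + 1)).any fun g => term (runT x g k)).head?.getD 0

/-- the first algorithm which has finished at time `k` -/
def firstGT (x : Inp) (L k : ℕ) : ℕ :=
  ((List.range (L + 1)).filter fun g => term (runT x g k)).head?.getD 0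

/-- the output of the first algorithm which finishes -/
def lpT (x : Inp) (L K : ℕ) : Outp :=
  lpOut x.2.2.1.length (outP (runT x (firstGT x L (firstKT x L K)) (firstKT x L K)))

/-- the algorithm on bit strings -/
def lpBitsT (x : List Bool) (K : ℕ) : Outp :=
  (unbits Inp x).elim ([], none) fun y => lpT y x.length K

theorem head_rangeT {P : ℕ → Bool} {k : ℕ} (hk : P k = true) (hmin : ∀ i < k, P i = false)
    {K : ℕ} (hK : k ≤ K) : ((List.range (K + 1)).filter P).head?.getD 0 = k := by
  have h0 : (List.range k).filter P = [] := by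
    rw [List.filter_eq_nil_iff]
    intro i hi
    rw [hmin i (List.mem_range.1 hi)]
    simp
  have h1 : ∀ d, ((List.range (k + d + 1)).filter P).head? = some k := by
    intro d
    induction d with
    | zero => rw [add_zero, List.range_succ, List.filter_append, h0]; simp [hk]
    | succ d ih =>
      rw [List.range_succ, List.filter_append, List.head?_append, ← add_assoc, ih]
      rfl
  obtain ⟨d, rfl⟩ := Nat.exists_eq_add_of_le hK
  rw [h1]
  rfl

theorem firstKT_eq {x : Inp} {L k : ℕ} (hk : ∃ g ≤ L, term (runT x g k) = true)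
    (hmin : ∀ i < k, ∀ g ≤ L, term (runT x g i) = false) {K : ℕ} (hK : k ≤ K) :
    firstKT x L K = k := by
  refine head_rangeT (P := fun k => (List.range (L + 1)).any fun g => term (runT x g k)) ?_ ?_ hK
  · obtain ⟨g, h1, h2⟩ := hk
    rw [List.any_eq_true]
    exact ⟨g, List.mem_range.2 (by omega), h2⟩
  · intro i hi
    rw [List.any_eq_false]
    intro g hg
    rw [hmin i hi g (by have := List.mem_range.1 hg; omega)]
    simp

variable {m n : ℕ} {A : Fin m → Fin n → ℚ} {b : Fin m → ℚ} {c v : Fin n → ℚ}

/-- The algorithm is correct. The output does not depend on the bound `K` for the number of steps,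
if one of the algorithms finishes within `K` steps. -/
theorem lpT_spec (hv : re v ∈ Set.extremePoints ℝ (polyhedron A b)) (L : ℕ) :
    ∃ (N : ℕ) (x : ℕ → Fin n → ℚ) (d : Option (Fin n → ℚ)),
      (∀ K, (∃ g ≤ L, ∃ k ≤ K, term (runT (inp A b c v) g k) = true) →
        lpT (inp A b c v) L K =
          ((List.range (N + 1)).map (fun k => List.ofFn (x k)), d.map List.ofFn)) ∧
      IsSimplexPath (polyhedron A b) c v N x d ∧ ∃ (k g : ℕ) (Q : List (List ℤ)),
        (∀ i < k, ∀ g ≤ L, term (runT (inp A b c v) g i) = false) ∧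
        runT (inp A b c v) g k = retW (Q ++ [startV (inp A b c v)]) [] ∧ N ≤ Q.length := by
  classical
  set X := inp A b c v with hX
  have hex : ∃ k, ∃ g ≤ L, term (runT X g k) = true := by
    obtain ⟨Q, j, -, h2, -⟩ := run_lp_generalT (cc := c) hv 0
    exact ⟨j, 0, Nat.zero_le _, term_iff.2 ⟨_, h2⟩⟩
  obtain ⟨k, hk, hmin⟩ : ∃ k, (∃ g ≤ L, term (runT X g k) = true) ∧
      ∀ i < k, ∀ g ≤ L, term (runT X g i) = false := by
    refine ⟨Nat.find hex, Nat.find_spec hex, fun i hi g hg => ?_⟩
    have := Nat.find_min hex hi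
    rw [← Bool.not_eq_true]
    exact fun h => this ⟨g, hg, h⟩
  obtain ⟨g, hg, hgmin⟩ : ∃ g, (g ≤ L ∧ term (runT X g k) = true) ∧
      ∀ i < g, term (runT X i k) = false := by
    refine ⟨Nat.find hk, Nat.find_spec hk, fun i hi => ?_⟩
    have h1 := Nat.find_min hk hi
    have h2 := (Nat.find_spec hk).1
    rw [← Bool.not_eq_true]
    exact fun h => h1 ⟨by omega, h⟩
  have hfg : firstGT X L k = g :=
    head_rangeT (P := fun g => term (runT X g k)) hg.2 hgmin hg.1
  -- the state is the result of the call
  obtain ⟨Q, j, -, h2, h3, h4⟩ := run_lp_generalT (cc := c) hv g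
  have hstate : runT X g k = retW (Q ++ [startV X]) [] := by
    obtain ⟨p, hp⟩ := term_iff.1 hg.2
    have e1 : runT X g (k + j) = retW p [] := by
      unfold runT at hp ⊢
      rw [add_comm, Function.iterate_add_apply, hp, wstepT_fixed]
    have e2 : runT X g (k + j) = retW (Q ++ [startV X]) [] := by
      unfold runT
      rw [Function.iterate_add_apply, h2, wstepT_fixed]
    rw [hp, ← e1, e2]
  obtain ⟨N, x, d, g1, g2, g3⟩ := lpOut_spec rfl (good_dd h3)
    (h4.of_relax fun r hr => jl_dd.1 hr)
  refine ⟨N, x, d, fun K hK => ?_, g2, k, g, Q, hmin, hstate, g3⟩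
  have hkK : k ≤ K := by
    obtain ⟨g', h5, i, h6, h7⟩ := hK
    by_contra hcon
    have := hmin i (by omega) g' h5
    rw [h7] at this
    exact absurd this (by simp)
  unfold lpT
  rw [firstKT_eq hk hmin hkK, hfg, hstate]
  have h6 : X.2.2.1.length = n := by simp [hX, Y644.QS.inp]
  rw [h6]
  exact g1

end Pool.Agent.J4.H83.SX
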