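import Pool.Agent.J4.H83.SX.Mach
import Pool.Agent.Y644.QW.PolyWFinal
set_option autoImplicit false

/-!
# Polynomial time: one step of the machine
-/

namespace Pool.Agent.J4.H83.SX

open Pool.Agent.Y644.QS Pool.Agent.Y644.QW Pool.Agent.H687R2.LLL Pool.Agent.NPC
open Pool.Agent.NPC.Y644

variable {α : Type} [TEnc α]

theorem poly_touch {c r : α → List ℤ} {E I : α → List (List ℤ)} (hc : Poly c) (hE : Poly E)
    (hI : Poly I) (hr : Poly r) : Poly (fun a => touch (c a) (E a) (I a) (r a)) := by
  unfold touch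
  have h1 : Poly (fun a => r a :: E a) := by fun_prop
  have h2 : Poly (fun a => jl (c a) (I a)) := by fun_prop
  have h3 : Poly (fun a => tau (c a)) := by fun_prop
  exact poly_feas hc h1 h2 h3

attribute [fun_prop] poly_touch

theorem poly_pruneT {c : α → List ℤ} {E I : α → List (List ℤ)} (hc : Poly c) (hE : Poly E)
    (hI : Poly I) : Poly (fun a => pruneT (c a) (E a) (I a)) := by
  unfold pruneT
  exact Poly.filter (p := fun a r => live (c a) (E a) r && touch (c a) (E a) (I a) r) hI
    (by fun_prop)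

attribute [fun_prop] poly_pruneT

/-- the steps with a path returned to the bottom of the stack of the first machine -/
theorem poly_wstepT_ret : Poly (fun x : (List ℤ × WState) × List (List ℤ) =>
    wstepT x.1.1 (Sum.inr (Sum.inr x.2, []), x.1.2.2)) := by
  have h3 : Poly (fun x : ((List ℤ × WState) × List (List ℤ)) × (ℕ × EIP) × List (ℕ × EIP) =>
      wret x.1.1.1 x.2.1.1 x.2.1.2.1 x.2.1.2.2.1 x.2.1.2.2.2 x.2.2
        (trunc x.1.1.1 x.2.1.2.1 x.2.1.2.2.1 (wS x.1.1.1 x.2.1.2.1 x.2.1.2.2.1) x.1.2)) := by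
    fun_prop
  refine (Poly.listCases (l := fun x : (List ℤ × WState) × List (List ℤ) => x.1.2.2)
    (g := fun x => ((Sum.inr (Sum.inr x.2, []), []) : WState))
    (h := fun x f st => wret x.1.1 f.1 f.2.1 f.2.2.1 f.2.2.2 st
      (trunc x.1.1 f.2.1 f.2.2.1 (wS x.1.1 f.2.1 f.2.2.1) x.2)) (by fun_prop) (by fun_prop)
      h3).congr ?_
  rintro ⟨⟨c, s, st⟩, p⟩
  cases st with
  | nil => rfl
  | cons f st =>
    obtain ⟨g, E, I, P⟩ := f
    rfl

set_option synthInstance.maxSize 4000 in
theorem poly_wstepT : Poly (fun x : List ℤ × WState => wstepT x.1 x.2) := by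
  -- calls with positive counter
  have h1 : Poly (fun x : (List ℤ × WState) × (ℕ × EIP) =>
      wcall x.1.1 x.2.1 x.2.2.1 (pruneT x.1.1 x.2.2.1 x.2.2.2.1) x.2.2.2.2 x.1.2.2) := by
    fun_prop
  -- states of the first machine
  have hst : Poly (fun x : (List ℤ × WState) × State =>
      ((Sum.inr (step x.1.1 x.2), x.1.2.2) : WState)) := by
    have : Poly (fun x : (List ℤ × WState) × State => step x.1.1 x.2) :=
      Poly.comp (g := fun x : List ℤ × State => step x.1 x.2)
        (f := fun x : (List ℤ × WState) × State => (x.1.1, x.2)) poly_step (by fun_prop)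
    fun_prop
  -- a path is returned
  have h5 : Poly (fun x : ((List ℤ × WState) × State) × List (List ℤ) =>
      wstepT x.1.1.1 (Sum.inr (Sum.inr x.2, x.1.2.2), x.1.1.2.2)) := by
    have a1 : Poly (fun x : ((List ℤ × WState) × State) × List (List ℤ) =>
        wstepT x.1.1.1 (Sum.inr (Sum.inr x.2, []), x.1.1.2.2)) :=
      Poly.comp (g := fun x : (List ℤ × WState) × List (List ℤ) =>
        wstepT x.1.1 (Sum.inr (Sum.inr x.2, []), x.1.2.2))
        (f := fun x : ((List ℤ × WState) × State) × List (List ℤ) => (x.1.1, x.2))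
        poly_wstepT_ret (by fun_prop)
    have a2 : Poly (fun x : (((List ℤ × WState) × State) × List (List ℤ)) ×
        Frame × List Frame => ((Sum.inr (step x.1.1.1.1 (Sum.inr x.1.2, x.2.1 :: x.2.2)),
          x.1.1.1.2.2) : WState)) := by
      have : Poly (fun x : (((List ℤ × WState) × State) × List (List ℤ)) ×
          Frame × List Frame => step x.1.1.1.1 (Sum.inr x.1.2, x.2.1 :: x.2.2)) :=
        Poly.comp (g := fun x : List ℤ × State => step x.1 x.2)
          (f := fun x : (((List ℤ × WState) × State) × List (List ℤ)) ×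
            Frame × List Frame => (x.1.1.1.1, (Sum.inr x.1.2, x.2.1 :: x.2.2)))
          poly_step (by fun_prop)
      fun_prop
    refine (Poly.listCases (l := fun x : ((List ℤ × WState) × State) × List (List ℤ) =>
      x.1.2.2)
      (g := fun x => wstepT x.1.1.1 (Sum.inr (Sum.inr x.2, []), x.1.1.2.2))
      (h := fun x f l => ((Sum.inr (step x.1.1.1 (Sum.inr x.2, f :: l)), x.1.1.2.2) : WState))
      (by fun_prop) a1 a2).congr ?_
    rintro ⟨⟨⟨c, s, st⟩, ⟨s', l⟩⟩, p⟩
    cases l with
    | nil => rfl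
    | cons f l => rfl
  have h6 : Poly (fun x : (List ℤ × WState) × State =>
      wstepT x.1.1 (Sum.inr x.2, x.1.2.2)) := by
    have a1 : Poly (fun x : ((List ℤ × WState) × State) × EIP =>
        ((Sum.inr (step x.1.1.1 x.1.2), x.1.1.2.2) : WState)) :=
      Poly.comp (g := fun x : (List ℤ × WState) × State =>
        ((Sum.inr (step x.1.1 x.2), x.1.2.2) : WState))
        (f := fun x : ((List ℤ × WState) × State) × EIP => x.1) hst (by fun_prop)
    refine (Poly.sumElim (o := fun x : (List ℤ × WState) × State => x.2.1)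
      (g := fun x (_ : EIP) => ((Sum.inr (step x.1.1 x.2), x.1.2.2) : WState))
      (h := fun x (p : List (List ℤ)) => wstepT x.1.1 (Sum.inr (Sum.inr p, x.2.2), x.1.2.2))
      (by fun_prop) a1 h5).congr ?_
    rintro ⟨⟨c, s, st⟩, ⟨s', l⟩⟩
    cases s' with
    | inl y => rfl
    | inr p => rfl
  refine (Poly.sumElim (o := fun x : List ℤ × WState => x.2.1)
    (g := fun x y => wcall x.1 y.1 y.2.1 (pruneT x.1 y.2.1 y.2.2.1) y.2.2.2 x.2.2)
    (h := fun (x : List ℤ × WState) (s : State) => wstepT x.1 (Sum.inr s, x.2.2))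
    (by fun_prop) h1 h6).congr ?_
  rintro ⟨c, s, st⟩
  cases s with
  | inl x => rfl
  | inr p => rfl

end Pool.Agent.J4.H83.SX
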