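import Pool.Agent.Y644.QW.WMach
set_option autoImplicit false

/-!
# Removal of the rows which are nowhere tight

`pruneT c E I` are the rows of `I` which are not constant on the affine space `E = 0` and which are
tight at some point of the polyhedron `E = 0`, `I ≤ 0`. The other rows can be removed without
changing the polyhedron.
-/

namespace Pool.Agent.J4.H83.SX

open Pool.Agent.Y644.QS Pool.Agent.Y644.QW Pool.Agent.H687R2.LLL Pool.Agent.NPC

/-- is the row tight at some point of the polyhedron? -/
def touch (c : List ℤ) (E I : List (List ℤ)) (r : List ℤ) : Bool :=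
  feas c (r :: E) (jl c I) (tau c)

/-- the rows which are not constant, and tight somewhere -/
def pruneT (c : List ℤ) (E I : List (List ℤ)) : List (List ℤ) :=
  I.filter fun r => live c E r && touch c E I r

variable {c : List ℤ} {E J I : List (List ℤ)}

theorem touch_iff (hE : Len c.length E) (hI : Len c.length I) {r : List ℤ}
    (hr : r.length = c.length) :
    touch c E I r = true ↔ ∃ h : EuclideanSpace ℝ (Fin c.length),
      InC (rf c.length) E (jl c I) h ∧ rf c.length r h = 0 ∧ 0 < rf c.length (tau c) h := by
  rw [touch, feas_iff (hE.cons hr) hI.jl (length_tau c)]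
  constructor
  · rintro ⟨h, hh, hp⟩
    exact ⟨h, ⟨fun e he => hh.1 e (by simp [he]), hh.2⟩, hh.1 r (by simp), hp⟩
  · rintro ⟨h, h1, h2, hp⟩
    refine ⟨h, ⟨fun e he => ?_, h1.2⟩, hp⟩
    rcases List.mem_cons.1 he with rfl | he
    · exact h2
    · exact h1.1 e he

theorem mem_pruneT {r : List ℤ} : r ∈ pruneT c E I ↔
    r ∈ I ∧ live c E r = true ∧ touch c E I r = true := by
  rw [pruneT, List.mem_filter, Bool.and_eq_true]

theorem pruneT_sub : ∀ r ∈ jl c (pruneT c E I), r ∈ jl c I :=
  jl_mono fun _ hr => (mem_pruneT.1 hr).1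

theorem inC_pruneT (hE : Len c.length E) (hI : Len c.length I) {v : List ℤ}
    (hv : Vx c E (jl c I) v) {h : EuclideanSpace ℝ (Fin c.length)}
    (hh : InC (rf c.length) E (jl c (pruneT c E I)) h) : InC (rf c.length) E (jl c I) h := by
  by_contra hcon
  set V := lv c.length v with hV
  have hvm : InC (rf c.length) E (jl c I) V := hv.ext.mem
  have hex : ∃ r ∈ jl c I, 0 < rf c.length r h := by
    by_contra h1
    push Not at h1
    exact hcon ⟨hh.1, h1⟩
  have hτh : 0 ≤ rf c.length (tau c) h := tau_nonneg (tau_mem_jl _ _) hh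
  -- a positive row is live, in `I`, nowhere tight
  have key : ∀ r ∈ jl c I, 0 < rf c.length r h → rf c.length r V < 0 ∧
      ∀ x : EuclideanSpace ℝ (Fin c.length), InC (rf c.length) E (jl c I) x →
        rf c.length r x = 0 → ¬ 0 < rf c.length (tau c) x := by
    intro r hr hp
    rcases mem_jl.1 hr with rfl | hr'
    · exfalso
      rw [rf_negV] at hp
      linarith
    · have hl : live c E r = true := by
        by_contra hl
        have h1 := dead_eq hE (hI r hr') hl hvm.1 hh.1
        have h2 := hvm.2 r hr
        have h4 := hv.pos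
        have h5 : rf c.length r h * rf c.length (tau c) V ≤ 0 := by
          rw [h1]; exact mul_nonpos_of_nonpos_of_nonneg h2 hτh
        have := mul_pos hp h4
        linarith
      have ht : ¬ touch c E I r = true := by
        intro ht
        have := hh.2 r (mem_jl.2 (Or.inr (mem_pruneT.2 ⟨hr', hl, ht⟩)))
        linarith
      rw [touch_iff hE hI (hI r hr')] at ht
      push Not at ht
      refine ⟨lt_of_le_of_ne (hvm.2 r hr) fun h0 => ?_, fun x h1 h2 => (ht x h1 h2).not_gt⟩
      exact absurd hv.pos (ht V hvm h0).not_gt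
  obtain ⟨r0, hr0, hr1⟩ := hex
  obtain ⟨r, hr, hrp, hmax⟩ := exists_max (p := fun r => 0 < rf c.length r h)
    (fun r => rf c.length r h / (-rf c.length r V)) ⟨r0, hr0, hr1⟩
  have hrV := (key r hr hrp).1
  set s := (-rf c.length r V) / rf c.length r h with hs
  have hs0 : 0 < s := div_pos (by linarith) hrp
  have hx : InC (rf c.length) E (jl c I) (V + s • h) := by
    refine ⟨fun e he => by simp [hvm.1 e he, hh.1 e he], fun q hq => ?_⟩
    simp only [map_add, map_smul, smul_eq_mul]
    by_cases hqp : 0 < rf c.length q h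
    · have h4 := hmax q hq hqp
      have h5 := (key q hq hqp).1
      have h6 : 0 < -rf c.length q V := by linarith
      have h7 : 0 < -rf c.length r V := by linarith
      rw [div_le_div_iff₀ h6 h7] at h4
      have h8 : s * rf c.length q h = (-rf c.length r V) * rf c.length q h / rf c.length r h := by
        rw [hs]; ring
      rw [h8]
      have h9 : (-rf c.length r V) * rf c.length q h / rf c.length r h ≤ -rf c.length q V := by
        rw [div_le_iff₀ hrp]; linarith
      linarith
    · have h3 := hvm.2 q hq
      have : s * rf c.length q h ≤ 0 := mul_nonpos_of_nonneg_of_nonpos hs0.le (not_lt.1 hqp)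
      linarith
  have hx0 : rf c.length r (V + s • h) = 0 := by
    simp only [map_add, map_smul, smul_eq_mul, hs]
    rw [div_mul_cancel₀ _ hrp.ne']
    ring
  refine (key r hr hrp).2 _ hx hx0 ?_
  simp only [map_add, map_smul, smul_eq_mul]
  have := hv.pos
  have := mul_nonneg hs0.le hτh
  linarith

theorem vx_pruneT (hE : Len c.length E) (hI : Len c.length I) {v : List ℤ}
    (hv : Vx c E (jl c I) v) : Vx c E (jl c (pruneT c E I)) v := by
  refine ⟨hv.len, ⟨hv.ext.mem.to_relax pruneT_sub, hv.ext.ne, fun h h1 h2 => ?_⟩, hv.pos⟩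
  refine hv.ext.ker h h1 fun r hr h0 => ?_
  rcases mem_jl.1 hr with rfl | hr'
  · exact h2 _ (tau_mem_jl _ _) h0
  · by_cases hl : live c E r = true
    · refine h2 r (mem_jl.2 (Or.inr (mem_pruneT.2 ⟨hr', hl, ?_⟩))) h0
      rw [touch_iff hE hI (hI r hr')]
      exact ⟨_, hv.ext.mem, h0, hv.pos⟩
    · have h1 := dead_eq hE (hI r hr') hl hv.ext.mem.1 h1
      rw [h0, zero_mul] at h1
      rcases mul_eq_zero.1 h1 with h | h
      · exact h
      · exact absurd h hv.pos.ne'

theorem good_pruneT (hE : Len c.length E) (hI : Len c.length I) {v : List ℤ}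
    (hv : Vx c E (jl c I) v) {P : List (List ℤ)} (h : Good c E (jl c (pruneT c E I)) P) :
    Good c E (jl c I) P :=
  Good.of_relax pruneT_sub h fun w hw => inC_pruneT hE hI hv (Good.inC h w hw)

end Pool.Agent.J4.H83.SX
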