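import Pool.Agent.J4.H83.SX.LenT
import Pool.Agent.Y644.QW.Final
set_option autoImplicit false

/-!
# Polyhedra all of whose faces have few facets
-/

namespace Pool.Agent.J4.H83.SX

open Finset Pool.Agent.Y644.QS Pool.Agent.Y644.QW Pool.Agent.H687R2.LLL Pool.Agent.NPC
open Pool.Agent.NPC.H532.RP

variable {m n : ℕ}

/-- the slack of a constraint -/
noncomputable def slack (A : Fin m → Fin n → ℚ) (b : Fin m → ℚ) :
    Fin m ⊕ Fin n → (Fin n → ℝ) → ℝ
  | Sum.inl i, x => b i - ∑ j, (A i j : ℝ) * x j
  | Sum.inr j, x => x j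

/-- the points of the polyhedron at which the constraints in `T` are tight -/
def faceOf (A : Fin m → Fin n → ℚ) (b : Fin m → ℚ) (T : Finset (Fin m ⊕ Fin n)) :
    Set (Fin n → ℝ) :=
  {x | x ∈ polyhedron A b ∧ ∀ i ∈ T, slack A b i x = 0}

open Classical in
/-- the constraints which are tight at some but not at all points of the face -/
noncomputable def facets (A : Fin m → Fin n → ℚ) (b : Fin m → ℚ)
    (T : Finset (Fin m ⊕ Fin n)) : Finset (Fin m ⊕ Fin n) :=
  Finset.univ.filter fun i => (∃ x ∈ faceOf A b T, slack A b i x = 0) ∧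
    ∃ x ∈ faceOf A b T, slack A b i x ≠ 0

/-- all faces `F` have at most `2 dim F + e` facets -/
def Thin (A : Fin m → Fin n → ℚ) (b : Fin m → ℚ) (e : ℕ) : Prop :=
  ∀ T : Finset (Fin m ⊕ Fin n), (faceOf A b T).Nonempty →
    (facets A b T).card ≤ 2 * Module.finrank ℝ (vectorSpan ℝ (faceOf A b T)) + e

/-- the constraints as rows -/
def rw' (A : Fin m → Fin n → ℚ) (b : Fin m → ℚ) : Fin m ⊕ Fin n → List ℤ
  | Sum.inl i => rowR A b i
  | Sum.inr j => rowP n (j : ℕ)

variable {A : Fin m → Fin n → ℚ} {b : Fin m → ℚ} {c v : Fin n → ℚ}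

theorem mem_rowsI_iff {r : List ℤ} : r ∈ rowsI (inp A b c v) ↔ ∃ i, r = rw' A b i := by
  unfold rowsI
  rw [List.mem_append, mem_rowsA, mem_rowsN]
  constructor
  · rintro (⟨i, rfl⟩ | ⟨j, hj, rfl⟩)
    · exact ⟨Sum.inl i, rfl⟩
    · exact ⟨Sum.inr ⟨j, hj⟩, rfl⟩
  · rintro ⟨i | j, rfl⟩
    · exact Or.inl ⟨i, rfl⟩
    · exact Or.inr ⟨j, j.2, rfl⟩

/-- the value of a row -/
theorem rf_rw' (i : Fin m ⊕ Fin n) : ∃ d : ℝ, 0 < d ∧ ∀ x : Fin n → ℝ,
    rf (crow (inp A b c v)).length (rw' A b i) (eN length_crow (x, 1)) =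
      - (d * slack A b i x) := by
  rcases i with i | j
  · refine ⟨zden (List.ofFn (A i) ++ [-b i]), by exact_mod_cast zden_pos _, fun x => ?_⟩
    rw [rw', rowR, rf_zrow]
    simp only [slack]
    push_cast
    ring
  · refine ⟨1, one_pos, fun x => ?_⟩
    have h1 : unitV (n + 1) (j : ℕ) = unitV (crow (inp A b c v)).length (j : ℕ) := by
      rw [length_crow]
    rw [rw', rowP, rf_negV, h1, rf_unitV (by rw [length_crow]; omega)]
    simp [eN, slack]

/-- the linear part of a row -/
theorem aL_rw' (i : Fin m ⊕ Fin n) : ∃ d : ℝ, 0 < d ∧ ∀ x y : Fin n → ℝ,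
    aL (length_crow (A := A) (b := b) (c := c) (v := v)) (rw' A b i) (x - y) =
      - (d * (slack A b i x - slack A b i y)) := by
  obtain ⟨d, hd, h⟩ := rf_rw' (A := A) (b := b) (c := c) (v := v) i
  refine ⟨d, hd, fun x y => ?_⟩
  rw [aL_apply]
  have e : ((x - y, (0 : ℝ)) : (Fin n → ℝ) × ℝ) = (x, 1) - (y, 1) := by simp
  rw [e, map_sub, map_sub, h, h]
  ring

/-- points of the cone and points of the polyhedron -/
theorem to_point {h : EuclideanSpace ℝ (Fin (crow (inp A b c v)).length)}
    (hτ : 0 < rf (crow (inp A b c v)).length (tau (crow (inp A b c v))) h) :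
    ∃ x : Fin n → ℝ, h = rf (crow (inp A b c v)).length (tau (crow (inp A b c v))) h •
      eN length_crow (x, 1) := by
  obtain ⟨⟨y, t⟩, rfl⟩ := (eN (length_crow (A := A) (b := b) (c := c) (v := v))).surjective h
  rw [rf_tau] at hτ ⊢
  refine ⟨t⁻¹ • y, ?_⟩
  rw [← map_smul, Prod.smul_mk, smul_smul, mul_inv_cancel₀ hτ.ne', one_smul, smul_eq_mul,
    mul_one]

theorem mem_poly_iff (x : Fin n → ℝ) : x ∈ polyhedron A b ↔ ∀ i, 0 ≤ slack A b i x := by
  constructor
  · rintro ⟨h1, h2⟩ (i | j)
    · simp only [slack]; linarith [h1 i]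
    · exact h2 j
  · intro h
    exact ⟨fun i => by have := h (Sum.inl i); simp only [slack] at this; linarith,
      fun j => h (Sum.inr j)⟩

/-- the cone over a face -/
theorem cone_point {h : EuclideanSpace ℝ (Fin (crow (inp A b c v)).length)} {E : List (List ℤ)}
    {T : Finset (Fin m ⊕ Fin n)} (hT : ∀ i, i ∈ T ↔ rw' A b i ∈ E)
    (hτ : 0 < rf (crow (inp A b c v)).length (tau (crow (inp A b c v))) h)
    (hh : InC (rf (crow (inp A b c v)).length) E
      (jl (crow (inp A b c v)) (rowsI (inp A b c v))) h) :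
    ∃ x ∈ faceOf A b T, ∀ i, rf (crow (inp A b c v)).length (rw' A b i) h = 0 ↔
      slack A b i x = 0 := by
  obtain ⟨x, hx⟩ := to_point hτ
  set t := rf (crow (inp A b c v)).length (tau (crow (inp A b c v))) h with ht
  have key : ∀ i, ∃ d : ℝ, 0 < d ∧ rf (crow (inp A b c v)).length (rw' A b i) h =
      - (d * slack A b i x) := by
    intro i
    obtain ⟨d, hd, h1⟩ := rf_rw' (A := A) (b := b) (c := c) (v := v) i
    refine ⟨t * d, mul_pos hτ hd, ?_⟩
    rw [hx, map_smul, h1, smul_eq_mul]
    ring
  have key0 : ∀ i, rf (crow (inp A b c v)).length (rw' A b i) h = 0 ↔ slack A b i x = 0 := by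
    intro i
    obtain ⟨d, hd, h1⟩ := key i
    rw [h1, neg_eq_zero, mul_eq_zero]
    exact ⟨fun h => h.resolve_left hd.ne', Or.inr⟩
  refine ⟨x, ⟨(mem_poly_iff x).2 fun i => ?_, fun i hi => ?_⟩, key0⟩
  · obtain ⟨d, hd, h1⟩ := key i
    have h2 := hh.2 _ (mem_jl.2 (Or.inr ((mem_rowsI_iff (c := c) (v := v)).2 ⟨i, rfl⟩)))
    rw [h1, neg_nonpos] at h2
    exact nonneg_of_mul_nonneg_right h2 hd
  · exact (key0 i).1 (hh.1 _ ((hT i).1 hi))

theorem finrank_face_le {E : List (List ℤ)} {T : Finset (Fin m ⊕ Fin n)}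
    (hT : ∀ i, i ∈ T ↔ rw' A b i ∈ E) (hE : ∀ r ∈ E, r ∈ rowsI (inp A b c v)) :
    Module.finrank ℝ (vectorSpan ℝ (faceOf A b T)) ≤
      z (aL (length_crow (A := A) (b := b) (c := c) (v := v))) Set.univ {r | r ∈ E} := by
  refine Submodule.finrank_mono ?_
  rw [vectorSpan_def, Submodule.span_le]
  rintro _ ⟨x, hx, y, hy, rfl⟩
  refine ⟨fun j hj => absurd (Set.mem_univ j) hj, fun r hr => ?_⟩
  obtain ⟨i, rfl⟩ := mem_rowsI_iff.1 (hE r hr)
  obtain ⟨d, hd, h⟩ := aL_rw' (A := A) (b := b) (c := c) (v := v) i
  have hi := (hT i).2 hr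
  change aL _ (rw' A b i) (x - y) = 0
  rw [h, hx.2 i hi, hy.2 i hi]
  ring

/-- the number of rows tight at an extreme ray -/
theorem tight_count {c : List ℤ} (hN : c.length = n + 1) {E I : List (List ℤ)}
    (hI : Len c.length I) {w : List ℤ} (hw : w.length = c.length)
    (h : Ext (rf c.length) E (jl c I) (lv c.length w)) :
    z (aL hN) Set.univ {r | r ∈ E} + (I.filter fun r => !decide (dot r w = 0)).length ≤
      I.length + 1 := by
  classical
  have h1 := z_ext hN hI hw h
  set F : Finset (List ℤ) := (I.filter fun r => decide (dot r w = 0)).toFinset with hF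
  have h2 : z (aL hN) Set.univ {r | r ∈ E} ≤
      z (aL hN) Set.univ ({r | r ∈ E} ∪ (F : Set (List ℤ))) + F.card := z_union_finset F
  have h3 : ({r | r ∈ E} ∪ (F : Set (List ℤ))) = ({r | r ∈ E} ∪ {r | r ∈ I ∧ dot r w = 0}) := by
    ext r
    simp [hF]
  rw [h3] at h2
  have h4 : F.card ≤ (I.filter fun r => decide (dot r w = 0)).length := List.toFinset_card_le _
  have h5 : ∀ l : List (List ℤ), (l.filter fun r => decide (dot r w = 0)).length +
      (l.filter fun r => !decide (dot r w = 0)).length = l.length := by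
    intro l
    induction l with
    | nil => simp
    | cons a l ih =>
      by_cases ha : dot a w = 0
      · rw [List.filter_cons_of_pos (by simp [ha]), List.filter_cons_of_neg (by simp [ha]),
          List.length_cons, List.length_cons]
        omega
      · rw [List.filter_cons_of_neg (by simp [ha]), List.filter_cons_of_pos (by simp [ha]),
          List.length_cons, List.length_cons]
        omega
  have h6 := h5 I
  omega

theorem z_cons_ge {c : List ℤ} (hN : c.length = n + 1) {E : List (List ℤ)} (F : List ℤ) :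
    z (aL hN) Set.univ {r | r ∈ E} ≤ z (aL hN) Set.univ {r | r ∈ F :: E} + 1 := by
  have h := z_insert (a := aL hN) (X := Set.univ) (R := {r | r ∈ E}) F
  have e : insert F {r | r ∈ E} = {r | r ∈ F :: E} := by ext r; simp
  rwa [e] at h

theorem length_filter_ne {I : List (List ℤ)} {F : List ℤ} (hF : F ∈ I) :
    (I.filter fun r => !decide (r = F)).length + 1 ≤ I.length := by
  induction I with
  | nil => simp at hF
  | cons a I ih =>
    by_cases ha : a = F
    · have h1 := List.length_filter_le (fun r => !decide (r = F)) I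
      rw [List.filter_cons_of_neg (by simp [ha]), List.length_cons]
      omega
    · have h1 := ih (by
        rcases List.mem_cons.1 hF with h | h
        · exact absurd h.symm ha
        · exact h)
      rw [List.filter_cons_of_pos (by simp [ha]), List.length_cons, List.length_cons]
      omega

/-- the invariants of the three levels -/
def QT (x : Inp) {n : ℕ} (hN : (crow x).length = n + 1) (e : ℕ) :
    ℕ → List (List ℤ) → List (List ℤ) → Prop
  | 0, _, I => I.length ≤ e + 2
  | 1, E, I => I.length ≤ z (aL hN) Set.univ {r | r ∈ E} + (e + 1)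
  | 2, E, I => (∀ r ∈ E, r ∈ rowsI x) ∧ (∀ r ∈ I, r ∈ rowsI x) ∧ I.Nodup ∧
      ∀ h, InC (rf (crow x).length) E (jl (crow x) I) h →
        InC (rf (crow x).length) E (jl (crow x) (rowsI x)) h
  | _ + 3, _, _ => False

theorem run_thin (hv : re v ∈ Set.extremePoints ℝ (polyhedron A b)) {e : ℕ}
    (hthin : Thin A b e) :
    WResT (crow (inp A b c v)) [] (rowsD (inp A b c v)) (startV (inp A b c v)) [] []
      ((bnd (e + 2) (e + 2) + 2) * Nat.choose (2 + n) 2)
      (mkcall 2 [] (rowsD (inp A b c v)) [startV (inp A b c v)], []) := by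
  classical
  set X := inp A b c v with hX
  have hN : (crow X).length = n + 1 := length_crow
  have hc : 0 < (crow X).length := by omega
  refine wrunT hc (bnd_pos _ _) (Q := QT X hN e) ?_ ?_ ?_ 2 n [] _ _ [] [] ?_
    (dimLe_top hN _) (fun r hr => by simp at hr) rowsD_facts.2 (vx_dd (start_vx hv))
  · -- a facet
    intro g E I F u hQ hE hI hu hF
    have hFI := (mem_pruneT.1 hF).1
    rcases g with _ | g
    · have h1 := length_filter_ne (I := pruneT (crow X) E I) hF
      have h2 : (pruneT (crow X) E I).length ≤ I.length := List.length_filter_le _ _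
      have h3 := z_cons_ge hN (E := E) F
      change I.length ≤ _ at hQ
      change _ ≤ z (aL hN) Set.univ {r | r ∈ F :: E} + (e + 1)
      omega
    · rcases g with _ | g
      swap
      · exact hQ.elim
      obtain ⟨q1, q2, q3, q4⟩ := hQ
      refine ⟨fun r hr => ?_, fun r hr => ?_, (q3.filter _).filter _, fun h hh => ?_⟩
      · rcases List.mem_cons.1 hr with rfl | hr
        · exact q2 _ hFI
        · exact q1 r hr
      · exact q2 r (mem_pruneT.1 (List.mem_filter.1 hr).1).1
      · have hFh : rf (crow X).length F h = 0 := hh.1 F (by simp)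
        have h1 : InC (rf (crow X).length) E (jl (crow X) (pruneT (crow X) E I)) h := by
          refine ⟨fun r hr => hh.1 r (by simp [hr]), fun r hr => ?_⟩
          rcases mem_jl.1 hr with rfl | hr
          · exact hh.2 _ (tau_mem_jl _ _)
          · by_cases hrF : r = F
            · rw [hrF, hFh]
            · exact hh.2 r (mem_jl.2 (Or.inr (List.mem_filter.2 ⟨hr, by simp [hrF]⟩)))
        have h2 := q4 h (inC_pruneT hE hI hu h1)
        exact ⟨hh.1, h2.2⟩
  · -- a relaxation
    intro g E I u w hQ hE hI hu0 hu hw hext hno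
    have hIp : Len (crow X).length (pruneT (crow X) E I) := hI.filter _
    have htc := tight_count hN hIp hw hext
    rcases g with _ | g
    · have h2 : (pruneT (crow X) E I).length ≤ I.length := List.length_filter_le _ _
      change I.length ≤ _ at hQ
      change _ ≤ e + 2
      omega
    · rcases g with _ | g
      swap
      · exact hQ.elim
      obtain ⟨q1, q2, q3, q4⟩ := hQ
      change _ ≤ z (aL hN) Set.univ {r | r ∈ E} + (e + 1)
      set T : Finset (Fin m ⊕ Fin n) := Finset.univ.filter fun i => rw' A b i ∈ E with hTdef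
      have hT : ∀ i, i ∈ T ↔ rw' A b i ∈ E := fun i => by simp [hTdef]
      have hle := finrank_face_le (c := c) (v := v) hT q1
      have hpt := fun h hτ hh => cone_point (c := c) (v := v) (h := h) hT hτ (q4 h hh)
      have hne : (faceOf A b T).Nonempty := by
        obtain ⟨x, hx, -⟩ := hpt _ hu0.pos hu0.ext.mem
        exact ⟨x, hx⟩
      have hthinT := hthin T hne
      -- the number of rows
      have hcount : (pruneT (crow X) E I).length ≤ (facets A b T).card := by
        have hnd : (pruneT (crow X) E I).Nodup := q3.filter _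
        rw [← List.toFinset_card_of_nodup hnd]
        have hsub : (pruneT (crow X) E I).toFinset ⊆ (facets A b T).image (rw' A b) := by
          intro r hr
          rw [List.mem_toFinset] at hr
          obtain ⟨r1, r2, r3⟩ := mem_pruneT.1 hr
          obtain ⟨i, rfl⟩ := mem_rowsI_iff.1 (q2 r r1)
          rw [Finset.mem_image]
          refine ⟨i, ?_, rfl⟩
          rw [facets, Finset.mem_filter]
          refine ⟨Finset.mem_univ _, ?_, ?_⟩
          · obtain ⟨h, h1, h2, h3⟩ := (touch_iff hE hI (hI _ r1)).1 r3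
            obtain ⟨x, hx, hxi⟩ := hpt h h3 h1
            exact ⟨x, hx, (hxi i).1 h2⟩
          · by_contra hcon
            push Not at hcon
            have hw1 := inC_pruneT hE hI hu0 hext.mem
            obtain ⟨x, hx, hxi⟩ := hpt _ hu0.pos hu0.ext.mem
            have hru := (hxi i).2 (hcon x hx)
            have hsum : InC (rf (crow X).length) E (jl (crow X) I)
                (lv (crow X).length u + lv (crow X).length w) := by
              refine ⟨fun r hr => ?_, fun r hr => ?_⟩
              · rw [map_add, hu0.ext.mem.1 r hr, hw1.1 r hr, add_zero]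
              · rw [map_add]
                exact add_nonpos (hu0.ext.mem.2 r hr) (hw1.2 r hr)
            have hpos : 0 < rf (crow X).length (tau (crow X))
                (lv (crow X).length u + lv (crow X).length w) := by
              rw [map_add]
              have h1 := tau_nonneg (tau_mem_jl _ _) hw1
              have h2 := hu0.pos
              linarith
            obtain ⟨x', hx', hxi'⟩ := hpt _ hpos hsum
            have h1 := (hxi' i).2 (hcon x' hx')
            rw [map_add, hru, zero_add] at h1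
            refine hno _ hr hru ?_
            rw [rf_dot (hI _ r1) hw] at h1
            exact_mod_cast h1
        exact (Finset.card_le_card hsub).trans Finset.card_image_le
      omega
  · -- the last stage
    intro E I u P0 hQ hE hI hu
    change I.length ≤ e + 2 at hQ
    have h1 := z_vx hN hu
    have h2 : z (aL hN) Set.univ {r | r ∈ E} ≤
        z (aL hN) Set.univ ({r | r ∈ E} ∪ (I.toFinset : Set (List ℤ))) + I.toFinset.card :=
      z_union_finset I.toFinset
    have h3 : ({r | r ∈ E} ∪ (I.toFinset : Set (List ℤ))) = {r | r ∈ E ∨ r ∈ I} := by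
      ext r; simp
    rw [h3, h1, zero_add] at h2
    have h4 := List.toFinset_card_le I
    have h5 := finrank_kerE_le hN E
    have hD : DimLe (crow X) E (e + 2) := by unfold DimLe; omega
    exact ⟨_, run_call hc (e + 2) (e + 2) E I u P0 [] hQ hD hE hI hu⟩
  · refine ⟨fun r hr => by simp at hr, fun r hr => mem_dd.1 hr, nodup_dd _, fun h hh =>
      ⟨hh.1, fun r hr => hh.2 r (jl_dd.2 hr)⟩⟩

end Pool.Agent.J4.H83.SX
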